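import Pool.Agent.Y318.HN.Defs
import Pool.Agent.Y318.HN.Final

/-!
# MP_794bd6_an: a diffeomorphism with `h(ρ) < ∫ χ₊ dρ` for every invariant measure `ρ`

The map is `(x, y) ↦ (x + arctan (cos 2πy sin 2πx / (10 - cos 2πx cos 2πy)) / π,
y - arctan (cos 2πx sin 2πy / (10 + cos 2πx cos 2πy)) / π)` on the two-torus. All its invariant
measures live on four saddles and four sources.
-/

set_option autoImplicit false

open MeasureTheory Pool.Agent.Y318.HN Pool.Agent.Helper179.KS

namespace Pool.Agent.Results.MP_794bd6_an.StrictInequality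

/-- There are a real-analytic diffeomorphism `f` of the two-torus and `ε > 0` such that
`h(ρ) ≤ ∫ χ₊ dρ - ε` for every `f`-invariant Borel probability measure `ρ`. -/
theorem result : ∃ (f : Torus ≃ₜ Torus) (F G : Plane → Plane) (ε : ℝ),
    IsAnalyticDiffeo f F G ∧ 0 < ε ∧
    ∀ ρ : Measure Torus, IsInvariant f ρ →
      (∃ χ : Torus → ℝ, Integrable χ ρ ∧ IsChiPlus F G ρ χ) ∧
      ∀ χ : Torus → ℝ, IsChiPlus F G ρ χ →
        ksEntropy ρ f ≤ ((∫ x, χ x ∂ρ - ε : ℝ) : EReal) :=
  ⟨ft, F0, F0H.symm, 2 * kap, ft_diffeo, by have := kap_pos; positivity, fun _ hρ => main hρ⟩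

end Pool.Agent.Results.MP_794bd6_an.StrictInequality
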